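import Pool.Agent.N119.PS.Stm4
import Pool.Agent.N841.PSC.BND
import Pool.Agent.N833.PSC.LEN

set_option autoImplicit false

/-!
# The intersection form exists (project PSC4, leaf IFM)
-/

namespace Pool.Agent.N826.PSC4

open Pool.Agent.H472R3 Pool.Agent.H67R3.FSR Pool.Agent.H67R4.SR Pool.Agent.N119.PS MeasureTheory
  Topology Filter
open scoped ENNReal NNReal

/-! ## Almost additive sequences -/

theorem bdd (a : ℕ → ℝ) (h0 : ∀ n, 0 ≤ a n) :
    BddBelow (Set.range fun n : ℕ => a (n + 1) / (2 * ((n : ℝ) + 1))) := by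
  refine ⟨0, ?_⟩
  rintro _ ⟨n, rfl⟩
  exact div_nonneg (h0 _) (by positivity)

theorem lower (a : ℕ → ℝ) (h0 : ∀ n, 0 ≤ a n) (n : ℕ) :
    2 * n * (⨅ n : ℕ, a (n + 1) / (2 * ((n : ℝ) + 1))) ≤ a n := by
  rcases n with _ | n
  · simpa using h0 0
  · have h := ciInf_le (bdd a h0) n
    rw [le_div_iff₀ (by positivity)] at h
    push_cast
    linarith

theorem mul_sub (a : ℕ → ℝ) (hs : ∀ m n, a (m + n) ≤ a m + a n) (n k : ℕ) :
    a (n * (k + 1)) ≤ (k + 1) * a n := by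
  induction k with
  | zero => simp
  | succ k ih =>
    have h := hs (n * (k + 1)) n
    have e : n * (k + 1 + 1) = n * (k + 1) + n := by ring
    rw [e]
    push_cast
    linarith

theorem mul_sup (a : ℕ → ℝ) (D : ℝ) (hs : ∀ m n, a m + a n ≤ a (m + n) + D) (n k : ℕ) :
    (k + 1) * a n ≤ a (n * (k + 1)) + k * D := by
  induction k with
  | zero => simp
  | succ k ih =>
    have h := hs (n * (k + 1)) n
    have e : n * (k + 1 + 1) = n * (k + 1) + n := by ring
    rw [e]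
    push_cast
    linarith

theorem upper (a : ℕ → ℝ) (D : ℝ) (hD : 0 ≤ D)
    (hs : ∀ m n, a (m + n) ≤ a m + a n) (ht : ∀ m n, a m + a n ≤ a (m + n) + D) (n : ℕ) :
    a n ≤ 2 * n * (⨅ n : ℕ, a (n + 1) / (2 * ((n : ℝ) + 1))) + D := by
  rcases n with _ | n
  · have h := ht 0 0
    simp only [Nat.add_zero] at h
    simp only [Nat.cast_zero, mul_zero, zero_mul]
    linarith
  · have key : (a (n + 1) - D) / (2 * ((n : ℝ) + 1)) ≤
        ⨅ n : ℕ, a (n + 1) / (2 * ((n : ℝ) + 1)) := by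
      refine le_ciInf fun k => ?_
      rw [div_le_div_iff₀ (by positivity) (by positivity)]
      have h1 := mul_sup a D ht (n + 1) k
      have h2 := mul_sub a hs (k + 1) n
      rw [mul_comm (k + 1) (n + 1)] at h2
      have h3 : ((k : ℝ) + 1) * (a (n + 1) - D) ≤ ((n : ℝ) + 1) * a (k + 1) := by nlinarith
      nlinarith
    rw [div_le_iff₀ (by positivity)] at key
    push_cast
    linarith

theorem eq_of_near (x y K : ℝ) (h : ∀ n : ℕ, |2 * n * x - 2 * n * y| ≤ K) : x = y := by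
  by_contra hne
  have hpos : 0 < |x - y| := abs_pos.2 (sub_ne_zero.2 hne)
  obtain ⟨n, hn⟩ := exists_nat_gt (K / |x - y|)
  rw [div_lt_iff₀ hpos] at hn
  have h1 := h n
  have e : 2 * (n : ℝ) * x - 2 * n * y = (2 * n) * (x - y) := by ring
  rw [e, abs_mul, abs_of_nonneg (by positivity : (0 : ℝ) ≤ 2 * n)] at h1
  nlinarith [mul_nonneg (Nat.cast_nonneg (α := ℝ) n) hpos.le]

/-! ## The intersection form -/

variable {N : ℕ}

theorem L_nn (A : FTree N) (x : A.T) (g : FreeGroup (Fin N)) : 0 ≤ (lenFn A x).L g :=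
  L_nonneg _ _

theorem an_nonneg (A : FTree N) (x : A.T) (μ : Current N) (n : ℕ) : 0 ≤ an A x μ n := by
  unfold an
  exact Finset.sum_nonneg fun g _ => mul_nonneg measureReal_nonneg (L_nn A x g)

theorem inter_bd (h1 : S_SUB) (A : FTree N) (hA : A.InCV) (C : ℝ) (hC : IsBCC A (bpt A) C)
    (μ : Current N) (n : ℕ) :
    2 * n * inter A μ ≤ an A (bpt A) μ n ∧
      an A (bpt A) μ n ≤ 2 * n * inter A μ + 2 * C * μ.meas.real (U 1) := by
  have hD : 0 ≤ 2 * C * μ.meas.real (U 1) :=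
    mul_nonneg (mul_nonneg (by norm_num) hC.1) measureReal_nonneg
  exact ⟨lower (an A (bpt A) μ) (an_nonneg A (bpt A) μ) n,
    upper (an A (bpt A) μ) _ hD (fun m n => (h1 N A hA (bpt A) μ m n).1)
      (fun m n => (h1 N A hA (bpt A) μ m n).2 C hC) n⟩

theorem inter_eq (h1 : S_SUB) (A : FTree N) (hA : A.InCV) (C : ℝ) (hC : IsBCC A (bpt A) C)
    (μ : Current N) (J K : ℝ) (hJ : ∀ n : ℕ, |an A (bpt A) μ n - 2 * n * J| ≤ K) :
    inter A μ = J := by
  refine eq_of_near _ _ (2 * C * μ.meas.real (U 1) + K) fun n => ?_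
  obtain ⟨a1, a2⟩ := inter_bd h1 A hA C hC μ n
  have a3 := abs_le.1 (hJ n)
  have hD : 0 ≤ 2 * C * μ.meas.real (U 1) :=
    mul_nonneg (mul_nonneg (by norm_num) hC.1) measureReal_nonneg
  rw [abs_le]
  constructor <;> linarith [a3.1, a3.2]

theorem inter_near (h1 : S_SUB) (A : FTree N) (hA : A.InCV) (C : ℝ) (hC : IsBCC A (bpt A) C)
    (μ : Current N) (n : ℕ) :
    |an A (bpt A) μ n - 2 * n * inter A μ| ≤ 2 * C * μ.meas.real (U 1) := by
  obtain ⟨a1, a2⟩ := inter_bd h1 A hA C hC μ n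
  rw [abs_le]
  have hD : 0 ≤ 2 * C * μ.meas.real (U 1) :=
    mul_nonneg (mul_nonneg (by norm_num) hC.1) measureReal_nonneg
  constructor <;> linarith

theorem inter_add (h1 : S_SUB) (hCyl : S_CYL) (A : FTree N) (hA : A.InCV) (C : ℝ)
    (hC : IsBCC A (bpt A) C) (μ ν : Current N) :
    inter A (μ + ν) = inter A μ + inter A ν := by
  refine inter_eq h1 A hA C hC _ _ (2 * C * μ.meas.real (U 1) + 2 * C * ν.meas.real (U 1))
    fun n => ?_
  rw [Pool.Agent.N841.PSC.BND.an_add A _ hCyl]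
  have e : an A (bpt A) μ n + an A (bpt A) ν n - 2 * n * (inter A μ + inter A ν) =
      (an A (bpt A) μ n - 2 * n * inter A μ) + (an A (bpt A) ν n - 2 * n * inter A ν) := by ring
  rw [e]
  exact (abs_add_le _ _).trans (add_le_add (inter_near h1 A hA C hC μ n)
    (inter_near h1 A hA C hC ν n))

theorem inter_smul (h1 : S_SUB) (A : FTree N) (hA : A.InCV) (C : ℝ)
    (hC : IsBCC A (bpt A) C) (c : ℝ≥0) (μ : Current N) :
    inter A (c • μ) = c * inter A μ := by
  refine inter_eq h1 A hA C hC _ _ (c * (2 * C * μ.meas.real (U 1))) fun n => ?_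
  rw [Pool.Agent.N841.PSC.BND.an_smul A _]
  have e : (c : ℝ) * an A (bpt A) μ n - 2 * n * (c * inter A μ) =
      c * (an A (bpt A) μ n - 2 * n * inter A μ) := by ring
  have hc : (0 : ℝ) ≤ (c : ℝ) := NNReal.coe_nonneg c
  rw [e, abs_mul, abs_of_nonneg hc]
  exact mul_le_mul_of_nonneg_left (inter_near h1 A hA C hC μ n) hc

theorem inter_cont (h1 : S_SUB) (hCyl : S_CYL) (A : FTree N) (hA : A.InCV) (C : ℝ)
    (hC : IsBCC A (bpt A) C) : Continuous (inter A) := by
  have hM : Continuous fun μ : Current N => μ.meas.real (U 1) := by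
    have h := (hCyl N).2.1 1
    rwa [Pool.Agent.N841.PSC.BND.cyl_one] at h
  have han : ∀ n, Continuous fun μ : Current N => an A (bpt A) μ n := by
    intro n
    unfold an
    exact continuous_finsetSum _ fun g _ => ((hCyl N).2.1 g).mul continuous_const
  rw [continuous_iff_continuousAt]
  intro μ₀
  rw [ContinuousAt, Metric.tendsto_nhds]
  intro ε hε
  set M := μ₀.meas.real (U 1) with hMdef
  have hM0 : 0 ≤ M := measureReal_nonneg
  have hC0 : 0 ≤ C := hC.1
  obtain ⟨n, hn⟩ := exists_nat_gt (3 * (C * (M + 1)) / ε)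
  rw [div_lt_iff₀ hε] at hn
  have hnn : (0 : ℝ) < n := by
    by_contra hcon
    have h0 : (n : ℝ) = 0 := le_antisymm (not_lt.1 hcon) (Nat.cast_nonneg n)
    rw [h0, zero_mul] at hn
    have : 0 ≤ 3 * (C * (M + 1)) := by positivity
    linarith
  have e1 : ∀ᶠ μ in 𝓝 μ₀, μ.meas.real (U 1) < M + 1 :=
    (hM.tendsto μ₀).eventually_lt_const (by linarith)
  have e2 : ∀ᶠ μ in 𝓝 μ₀, dist (an A (bpt A) μ n) (an A (bpt A) μ₀ n) < 2 * n * (ε / 3) :=
    (Metric.tendsto_nhds.1 ((han n).tendsto μ₀)) _ (by positivity)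
  filter_upwards [e1, e2] with μ f1 f2
  rw [Real.dist_eq] at f2 ⊢
  have g1 := abs_le.1 (inter_near h1 A hA C hC μ n)
  have g2 := abs_le.1 (inter_near h1 A hA C hC μ₀ n)
  have g3 := abs_lt.1 f2
  have g4 : 2 * C * μ.meas.real (U 1) ≤ 2 * (C * (M + 1)) := by nlinarith
  have g5 : 2 * C * μ₀.meas.real (U 1) ≤ 2 * (C * (M + 1)) := by nlinarith
  have g6 : |2 * n * (inter A μ - inter A μ₀)| < 2 * n * ε := by
    rw [abs_lt]
    constructor <;> nlinarith [g1.1, g1.2, g2.1, g2.2, g3.1, g3.2]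
  rw [abs_mul, abs_of_pos (by positivity : (0 : ℝ) < 2 * n)] at g6
  exact lt_of_mul_lt_mul_left g6 (by positivity)

theorem inter_per (h1 : S_SUB) (hP : S_PER) (hE : S_ETA) (hL : S_LEN) (A : FTree N)
    (hA : A.InCV) (C : ℝ) (hC : IsBCC A (bpt A) C) (p : PerWord N) (hp : p.g ≠ 1) :
    inter A (eta p.g hp) = A.len p.g := by
  refine inter_eq h1 A hA C hC _ _ (4 * C * p.m) fun n => ?_
  rw [Pool.Agent.N841.PSC.BND.an_eta A _ hP hE]
  obtain ⟨a1, a2⟩ := hL N A hA (bpt A) p n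
  have a3 := a2 C hC
  have hC0 : 0 ≤ C := hC.1
  have h0 : 0 ≤ 4 * C * (p.m : ℝ) := by positivity
  rw [abs_le]
  constructor <;> linarith

theorem inter_counting (h1 : S_SUB) (h2 : S_POW) (hP : S_PER) (hE : S_ETA) (hL : S_LEN)
    (A : FTree N) (hA : A.InCV) (C : ℝ) (hC : IsBCC A (bpt A) C) (g : FreeGroup (Fin N))
    (hg : g ≠ 1) : inter A (eta g hg) = A.len g := by
  obtain ⟨p, hp, k, hk, hconj, hmeas⟩ := h2 N g hg
  have e : eta g hg = (k : ℝ≥0) • eta p.g hp := by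
    apply Current.ext
    rw [Current.smul_meas]
    exact hmeas
  rw [e, inter_smul h1 A hA C hC, inter_per h1 hP hE hL A hA C hC]
  obtain ⟨j, rfl⟩ : ∃ j, k = j + 1 := ⟨k - 1, by omega⟩
  have h3 := (Pool.Agent.N833.PSC.LEN.len_pow A hA.1 p.g hp j).2
  obtain ⟨c, hc⟩ := isConj_iff.mp hconj
  rw [← hc, len_conj] at h3
  rw [h3]
  push_cast
  ring

theorem t (h1 : S_SUB) (h2 : S_POW) (hB : S_BCL) (hCyl : S_CYL) (hP : S_PER) (hE : S_ETA)
    (hL : S_LEN) : S_IFM := by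
  intro N
  constructor
  · intro A hA μ ν
    obtain ⟨C, hC⟩ := hB N A hA (bpt A)
    exact inter_add h1 hCyl A hA C hC μ ν
  · intro A hA c μ
    obtain ⟨C, hC⟩ := hB N A hA (bpt A)
    exact inter_smul h1 A hA C hC c μ
  · intro A hA
    obtain ⟨C, hC⟩ := hB N A hA (bpt A)
    exact inter_cont h1 hCyl A hA C hC
  · intro A hA g hg
    obtain ⟨C, hC⟩ := hB N A hA (bpt A)
    exact inter_counting h1 h2 hP hE hL A hA C hC g hg

end Pool.Agent.N826.PSC4
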